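import Mathlib
import Pool.Agent.W751.CV.Fin
import Pool.Agent.W349.CD.NU
import Pool.Agent.W349.CV.And
import Pool.Agent.W349.CV.Had
import Pool.Agent.W366.CV.Gram
import Pool.Agent.W797.CV.ZN
import Pool.Agent.W82.CV.L2
import Pool.Agent.W156.CV.NegIn
import Pool.Agent.W327.CV.Poly
import Pool.Agent.W947.CV.Small
import Pool.Agent.W515.CV.Area
import Pool.Agent.W45.CV.CA
import Pool.Agent.W15.CV.CB
import Pool.Agent.W460.CV.CC
import Pool.Agent.W293.CV.Jac
import Pool.Agent.W636.CV.Meas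
import Pool.Agent.W462.CV.HAHC
import Pool.Agent.W597.CV.HB
import Pool.Agent.W32.CV.Piw
import Pool.Agent.W293.CV.Sup
import Pool.Agent.W778.CV.NegOut
import Pool.Agent.W253.CV.Coef

/-!
# The volume of the non-hyperbolic polynomials with roots in a disc is exponentially small
-/

set_option autoImplicit false

open Polynomial Filter Topology MeasureTheory

namespace Pool.Agent.Results.MP_28f8a1_an.CoefficientVolume

/-- The polynomial as a self-map of the plane. -/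
def map (T : ℂ[X]) : ℂ → ℂ := fun w : ℂ => T.eval w

/-- The orbit of `z` escapes to infinity. -/
def Escapes (T : ℂ[X]) (z : ℂ) : Prop :=
  Tendsto (fun k : ℕ => ‖(map T)^[k] z‖) atTop atTop

/-- The orbit of `z` is attracted by a sink (attracting periodic point) of `T`. -/
def Attracted (T : ℂ[X]) (z : ℂ) : Prop :=
  ∃ n : ℕ, 0 < n ∧ ∃ x : ℂ, (map T)^[n] x = x ∧ ‖deriv ((map T)^[n]) x‖ < 1 ∧
    Tendsto (fun k : ℕ => (map T)^[n * k] z) atTop (𝓝 x)

/-- `T` is hyperbolic: every critical point escapes or is attracted by a sink. -/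
def Hyperbolic (T : ℂ[X]) : Prop :=
  ∀ c : ℂ, (derivative T).eval c = 0 → Escapes T c ∨ Attracted T c

/-- The monic polynomial `X ^ N + a (N - 1) X ^ (N - 1) + … + a 0`. -/
noncomputable def withCoeffs {N : ℕ} (a : Fin N → ℂ) : ℂ[X] :=
  X ^ N + ∑ k : Fin N, C (a k) * X ^ (k : ℕ)

/-- The coefficient vectors of the monic polynomials of degree `N` all of whose roots lie in the
closed disc with centre `p` and radius `ρ`. -/
def RootsInDisc (p : ℂ) (ρ : ℝ) (N : ℕ) : Set (Fin N → ℂ) :=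
  {a | ∀ x : ℂ, (withCoeffs a).eval x = 0 → ‖x - p‖ ≤ ρ}

theorem hyperbolic_of {T : ℂ[X]} (hT : Pool.Agent.W751.CD.Hyp T) : Hyperbolic T := by
  intro c hc
  rcases hT c hc with h | ⟨x, h1, h2, h3⟩
  · exact Or.inl h
  · refine Or.inr ⟨1, one_pos, x, h1, ?_, ?_⟩
    · rw [Function.iterate_one]; exact h2
    · simp only [one_mul]; exact h3

/-- Let `p` be a complex number and `ρ > 0`, `ρ ≠ 1`, and `‖p‖ ≠ 1` if `ρ < 1`; let `A ≥ 1`. There
are `K` and `θ < 1` such that for every degree `N`: among the monic polynomials of degree `N` with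
all roots in the disc with centre `p` and radius `ρ`, the proportion (Lebesgue measure on the
coefficients) of those having a non-hyperbolic multiple `α * T`, `1 / A ≤ ‖α‖ ≤ A`, is at most
`K θ ^ N`. The set of all coefficient vectors considered has positive finite volume. -/
theorem result :
    ∀ (p : ℂ) (ρ A : ℝ), 0 < ρ → ρ ≠ 1 → (ρ < 1 → ‖p‖ ≠ 1) → 1 ≤ A →
      ∃ K θ : ℝ, 0 < K ∧ 0 < θ ∧ θ < 1 ∧ ∀ N : ℕ,
        volume (RootsInDisc p ρ N) ≠ 0 ∧ volume (RootsInDisc p ρ N) ≠ ⊤ ∧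
        volume {a : Fin N → ℂ | a ∈ RootsInDisc p ρ N ∧
          ∃ α : ℂ, 1 / A ≤ ‖α‖ ∧ ‖α‖ ≤ A ∧ ¬ Hyperbolic (C α * withCoeffs a)} ≤
          ENNReal.ofReal (K * θ ^ N) * volume (RootsInDisc p ρ N) := by
  have hAND := Pool.Agent.W349.CV.and
  have hHAD := Pool.Agent.W349.CV.had
  have hGRAM := Pool.Agent.W366.CV.gram hAND hHAD
  have hZN := Pool.Agent.W797.CV.main hAND
  have hPIW := Pool.Agent.W32.CV.piw
  have hL2 := Pool.Agent.W82.CV.l2_holds hZN
  have hSUP := Pool.Agent.W293.CV.t_sup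
  have hNU := W349.CD.NU_holds
  have hNEGIN := Pool.Agent.W156.CVNegIn.negin hNU hGRAM hPIW
  have hNEGOUT := Pool.Agent.W778.CV.negout hGRAM hPIW
  have hCRIT := Pool.Agent.W327.CV.crit
  have hPOLY := Pool.Agent.W327.CV.poly_t
  have hAREA := Pool.Agent.W515.CV.Area.area hZN hNEGIN
  have hCA := Pool.Agent.W45.CV.ca hZN hL2 hSUP hCRIT Pool.Agent.W947.CV.small hAREA
  have hCB := Pool.Agent.W15.CV.cb hL2 hSUP
  have hCC := Pool.Agent.W460.CV.cc hZN hCB hNEGOUT
  have hCOEF := Pool.Agent.W253.CV.coef Pool.Agent.W293.CV.t_jac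
  have hMEAS := Pool.Agent.W636.CV.meas
  have hHA := Pool.Agent.W462.CV.ha
  have hHC := Pool.Agent.W462.CV.hc
  have hHB := Pool.Agent.W597.CV.hb
  intro p ρ A hρ hρ1 hp hA
  obtain ⟨K, θ, hK, hθ, hθ1, h⟩ := Pool.Agent.W751.CV.main hZN hCRIT hCA hCB hCC hCOEF hPOLY hMEAS
    hHA hHB hHC hρ hρ1 hp hA
  refine ⟨K, θ, hK, hθ, hθ1, fun N => ?_⟩
  have hV := Pool.Agent.W751.CV.vol_Om hCOEF hZN (N := N) (p := p) hρ
  refine ⟨hV.1, hV.2, (measure_mono ?_).trans (h N)⟩
  rintro a ⟨ha, α, h1, h2, h3⟩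
  exact ⟨ha, α, h1, h2, fun h4 => h3 (hyperbolic_of h4)⟩

end Pool.Agent.Results.MP_28f8a1_an.CoefficientVolume
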