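import Mathlib
import Pool.Agent.H713R3.ZA.TSURJ
import Pool.Agent.W820.BM.Asm7

set_option autoImplicit false

open Filter Topology Polynomial MeasureTheory

namespace Pool.Agent.Results.MP_28f8a1_an.EveryHyperbolicType

/-- The polynomial as a self-map of the plane. -/
def map (T : ℂ[X]) : ℂ → ℂ := fun w : ℂ => T.eval w

/-- The orbit of `z` escapes to infinity. -/
def Escapes (T : ℂ[X]) (z : ℂ) : Prop :=
  Tendsto (fun k : ℕ => ‖(map T)^[k] z‖) atTop atTop

/-- The filled Julia set: the points which do not escape. -/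
def K (T : ℂ[X]) : Set ℂ := {z : ℂ | ¬ Escapes T z}

/-- `T` has degree `n + 1`, and `c 0, …, c (n - 1)` are its critical points, listed with
multiplicity. -/
def CritList {n : ℕ} (T : ℂ[X]) (c : Fin n → ℂ) : Prop :=
  T.natDegree = n + 1 ∧
    derivative T = C (((n : ℂ) + 1) * T.leadingCoeff) * ∏ i, (X - C (c i))

/-- `S` is hyperbolic of type `τ`: `s` lists its critical points, the points `z j` (`j < k`) are
sinks with `S^(p j) (z j) = z j`, the critical point `s i` escapes if `τ i = none`, and it is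
attracted by the sink `z j` if `τ i = some j`. -/
structure HasType {n k : ℕ} (S : ℂ[X]) (s : Fin n → ℂ) (τ : Fin n → Option (Fin k))
    (p : Fin k → ℕ) (z : Fin k → ℂ) : Prop where
  crit : CritList S s
  sink : ∀ j, 0 < p j ∧ (map S)^[p j] (z j) = z j ∧ ‖deriv ((map S)^[p j]) (z j)‖ < 1
  esc : ∀ i, τ i = none → Escapes S (s i)
  att : ∀ i j, τ i = some j →
    Tendsto (fun l : ℕ => (map S)^[p j * l] (s i)) atTop (𝓝 (z j))

/-- `S` is hyperbolic: every critical point escapes or is attracted by a sink. -/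
def Hyperbolic (S : ℂ[X]) : Prop :=
  ∀ c : ℂ, (derivative S).eval c = 0 → Escapes S c ∨
    ∃ n : ℕ, 0 < n ∧ ∃ x : ℂ, (map S)^[n] x = x ∧ ‖deriv ((map S)^[n]) x‖ < 1 ∧
      Tendsto (fun l : ℕ => (map S)^[n * l] c) atTop (𝓝 x)

theorem HasType.hyperbolic {n k : ℕ} {S : ℂ[X]} {s : Fin n → ℂ} {τ : Fin n → Option (Fin k)}
    {p : Fin k → ℕ} {z : Fin k → ℂ} (h : HasType S s τ p z) : Hyperbolic S := by
  intro c hc
  have hlc : S.leadingCoeff ≠ 0 := by
    rw [Ne, leadingCoeff_eq_zero]
    rintro rfl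
    have := h.crit.1
    simp at this
  rw [h.crit.2, eval_mul, eval_C, eval_prod, mul_eq_zero] at hc
  rcases hc with hc | hc
  · exact absurd hc (mul_ne_zero (Nat.cast_add_one_ne_zero n) hlc)
  · obtain ⟨i, -, hi⟩ := Finset.prod_eq_zero_iff.mp hc
    rw [eval_sub, eval_X, eval_C, sub_eq_zero] at hi
    subst hi
    rcases hτ : τ i with _ | j
    · exact Or.inl (h.esc i hτ)
    · exact Or.inr ⟨p j, (h.sink j).1, z j, (h.sink j).2.1, (h.sink j).2.2, h.att i j hτ⟩

open Pool.Agent.H713R3.ZA Pool.Agent.W820.BM in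
theorem hasType_of {a : ℂ} (ha : a ≠ 0) {n k : ℕ} {τ : Fin n → Option (Fin k)} {N₀ : ℕ} {x : PE n}
    {p : Fin k → ℕ} {z : Fin k → ℂ} {r : Fin k → Fin n} (h : Concl a n k τ N₀ x p z r) :
    HasType (fam a n x) (fun i => x (some i)) τ p z := by
  refine ⟨⟨natDegree_fam ha n x, ?_⟩, fun j => ⟨(h.prime j).1.pos, h.fix j, h.mul j⟩, h.esc, h.att⟩
  rw [leadingCoeff_fam ha, derivative_fam, mul_comm]
  unfold dfam
  rw [mul_comm a, mul_comm]

/-- Let `T` be a polynomial of degree `n + 1 ≥ 2` none of whose critical points `c i` escapes (that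
is, with connected filled Julia set `K T`). Then `T` is approximated by hyperbolic polynomials `S` of
EVERY type `τ` up to the distance `C * sqrt (area (K T))`: any set of critical points can be made
to escape and all the others are distributed arbitrarily over the basins of `k` sinks, whose
periods divide different primes `p j ≥ N`. Here `S` has the same two leading coefficients as `T`
and the constant `C` depends only on `n`, the leading coefficient of `T` and a bound for the second
coefficient (for instance, only on the degree if `T` is monic and centred). If `K T` has zero area,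
then moreover the critical point `s i` of `S` is within `ε` of the critical point `c i` of `T` for all
`i`, and the exact period of the sink `z j` is `p j` for all `j`, so that the `k` attracting cycles
are different. -/
theorem result (n : ℕ) (hn : 1 ≤ n) (a : ℂ) (ha : a ≠ 0) (b : ℝ) : ∃ C : ℝ, 0 < C ∧
    ∀ (T : ℂ[X]) (c : Fin n → ℂ), CritList T c → T.leadingCoeff = a → ‖T.coeff n‖ ≤ b →
      (∀ i, ¬ Escapes T (c i)) → volume (K T) < ⊤ ∧
      ∀ ε : ℝ, C * Real.sqrt (volume (K T)).toReal < ε →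
      ∀ (k : ℕ) (τ : Fin n → Option (Fin k)), (∀ j, ∃ i, τ i = some j) → ∀ N : ℕ,
      ∃ (S : ℂ[X]) (s : Fin n → ℂ) (p : Fin k → ℕ) (z : Fin k → ℂ),
        S.natDegree = n + 1 ∧ S.leadingCoeff = a ∧ S.coeff n = T.coeff n ∧
        (∀ j : ℕ, ‖S.coeff j - T.coeff j‖ < ε) ∧ Hyperbolic S ∧ HasType S s τ p z ∧
        Function.Injective p ∧ (∀ j, (p j).Prime ∧ N ≤ p j) ∧
        (volume (K T) = 0 → (∀ i, ‖s i - c i‖ < ε) ∧
          ∀ j, Function.minimalPeriod (map S) (z j) = p j) := by
  obtain ⟨C, hC, h⟩ := Pool.Agent.W820.BM.typeA ha hn (c₀ := |b| / ‖a‖) (by positivity)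
  refine ⟨C, hC, fun T c hc hTa hTb hcrit => ?_⟩
  have hT := Pool.Agent.W820.BM.fam_of_deriv hc.2
  rw [hTa] at hT
  set xT : Pool.Agent.H713R3.ZA.PE n := fun o => o.elim (T.coeff 0) c with hxT
  obtain ⟨hvol, h⟩ := h xT (Pool.Agent.W820.BM.sum_bound hn ha (by rw [hT]; exact hTb))
    (by rw [hT]; exact hcrit)
  rw [hT] at hvol h
  refine ⟨hvol, fun ε hε k τ hτ N => ?_⟩
  by_cases hv : volume (K T) = 0
  · have hε0 : 0 < ε := by
      rw [hv] at hε
      simpa using hε
    obtain ⟨ε', hε', hfx⟩ := W973.BM.fx_ T (by rw [hc.1]; omega) hv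
    obtain ⟨N', hN'⟩ := exists_nat_gt (1 / ε')
    obtain ⟨x, p, z, r, hx1, hx2, hx3, hx4⟩ := Pool.Agent.W820.BM.typeB ha hn xT
      (by rw [hT]; exact hcrit) (by rw [hT]; exact hv) (lt_min hε0 hε') k τ hτ (max N N')
    rw [hT] at hx1
    have hty := hasType_of ha hx4
    refine ⟨Pool.Agent.H713R3.ZA.fam a n x, fun i => x (some i), p, z,
      Pool.Agent.H713R3.ZA.natDegree_fam ha n x, Pool.Agent.W820.BM.leadingCoeff_fam ha n x, ?_,
      fun j => (hx1 j).trans_le (min_le_left _ _), hty.hyperbolic, hty, hx4.inj,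
      fun j => ⟨(hx4.prime j).1, (le_max_left _ _).trans (hx4.prime j).2⟩, fun _ => ⟨?_, ?_⟩⟩
    · have := (Pool.Agent.W820.BM.coeff_eq_iff hn ha x xT).mpr hx3
      rw [this, hT]
    · intro i
      have h1 : ‖(x - xT) (some i)‖ ≤ ‖x - xT‖ := norm_le_pi_norm (x - xT) (some i)
      exact (h1.trans_lt hx2).trans_le (min_le_left _ _)
    · intro j
      apply Pool.Agent.W820.BM.minPer (hx4.prime j).1 (hx4.fix j)
      intro hz
      have h1 := hfx (Pool.Agent.H713R3.ZA.fam a n x)
        (by rw [Pool.Agent.H713R3.ZA.natDegree_fam ha, hc.1])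
        (fun j => (hx1 j).trans_le (min_le_right _ _)) (z j) (x (some (r j))) hz (by
          rw [Pool.Agent.H713R3.ZA.derivative_fam]
          unfold Pool.Agent.H713R3.ZA.dfam
          rw [eval_mul, eval_prod, Finset.prod_eq_zero (Finset.mem_univ (r j)), mul_zero]
          simp)
      have h2 := hx4.near j
      have h3 : (N' : ℝ) ≤ ((max N N' : ℕ) : ℝ) := by exact_mod_cast le_max_right N N'
      have h4 : 1 < ε' * N' := by rwa [div_lt_iff₀ hε', mul_comm] at hN'
      have h5 : ε' * N' ≤ ‖z j - x (some (r j))‖ * (((max N N' : ℕ) : ℝ) + 1) := by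
        apply mul_le_mul h1 (by linarith) (Nat.cast_nonneg _) (norm_nonneg _)
      linarith
  · obtain ⟨x, p, z, r, hx1, hx2, hx3⟩ := h ε hε k τ hτ N
    refine ⟨Pool.Agent.H713R3.ZA.fam a n x, fun i => x (some i), p, z,
      Pool.Agent.H713R3.ZA.natDegree_fam ha n x, Pool.Agent.W820.BM.leadingCoeff_fam ha n x, ?_,
      hx1, (hasType_of ha hx3).hyperbolic, hasType_of ha hx3, hx3.inj, hx3.prime,
      fun h0 => absurd h0 hv⟩
    have := (Pool.Agent.W820.BM.coeff_eq_iff hn ha x xT).mpr hx2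
    rw [this, hT]

end Pool.Agent.Results.MP_28f8a1_an.EveryHyperbolicType
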