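import Mathlib
import Pool.Agent.W751.RR.Main
import Pool.Agent.W751.CD.Dyn
import Pool.Agent.W349.CD.NU
import Pool.Agent.W597.CD.Pow
import Pool.Agent.W52.CD.Conj
import Pool.Agent.W125.RR.PotA
import Pool.Agent.W108.RR.POTB
import Pool.Agent.W751.RR.PotC
import Pool.Agent.W12.RR.Potd
import Pool.Agent.W571.RR.Mom
import Pool.Agent.W571.RR.UU
import Pool.Agent.W571.RR.EV1
import Pool.Agent.W762.RR.Ev2
import Pool.Agent.W554.RR.Ev3
import Pool.Agent.W839.RR.Cnt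
import Pool.Agent.W975.RR.Jb
import Pool.Agent.W12.RR.Ar1
import Pool.Agent.W90.RR.AR2
import Pool.Agent.W376.RR.AR
import Pool.Agent.W32.RR.Hyp
import Pool.Agent.W64.RR.Clo
import Pool.Agent.W214.RR.SC
import Pool.Agent.W613.RR.FB

/-!
# Almost all complex polynomials of large degree with roots in a given disc are hyperbolic
-/

set_option autoImplicit false

open Polynomial Filter Topology MeasureTheory

namespace Pool.Agent.Results.MP_28f8a1_an.RandomRoots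

/-- The polynomial as a self-map of the plane. -/
def map (T : ℂ[X]) : ℂ → ℂ := fun w : ℂ => T.eval w

/-- The orbit of `z` escapes to infinity. -/
def Escapes (T : ℂ[X]) (z : ℂ) : Prop :=
  Tendsto (fun k : ℕ => ‖(map T)^[k] z‖) atTop atTop

/-- The orbit of `z` is attracted by a sink (attracting periodic point) of `T`. -/
def Attracted (T : ℂ[X]) (z : ℂ) : Prop :=
  ∃ n : ℕ, 0 < n ∧ ∃ x : ℂ, (map T)^[n] x = x ∧ ‖deriv ((map T)^[n]) x‖ < 1 ∧
    Tendsto (fun k : ℕ => (map T)^[n * k] z) atTop (𝓝 x)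

/-- `T` is hyperbolic: every critical point escapes or is attracted by a sink. -/
def Hyperbolic (T : ℂ[X]) : Prop :=
  ∀ c : ℂ, (derivative T).eval c = 0 → Escapes T c ∨ Attracted T c

/-- The monic polynomial with roots `z i`. -/
noncomputable def withRoots {N : ℕ} (z : Fin N → ℂ) : ℂ[X] := ∏ i, (X - C (z i))

theorem hyperbolic_of {T : ℂ[X]} (hT : Pool.Agent.W751.CD.Hyp T) : Hyperbolic T := by
  intro c hc
  rcases hT c hc with h | ⟨x, h1, h2, h3⟩
  · exact Or.inl h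
  · refine Or.inr ⟨1, one_pos, x, h1, ?_, ?_⟩
    · rw [Function.iterate_one]; exact h2
    · simp only [one_mul]; exact h3

open Pool.Agent.W751.RR Pool.Agent.W751.CD in
theorem transfer {ρ : ℝ} (hρ : 0 < ρ) {N : ℕ} {b : ℝ}
    (h : mN ρ N {z | ¬ Hyp (P z)} ≤ ENNReal.ofReal b) :
    volume {z : Fin N → ℂ | (∀ i, ‖z i‖ ≤ ρ) ∧ ¬ Hyperbolic (withRoots z)} ≤
      ENNReal.ofReal b * volume {z : Fin N → ℂ | ∀ i, ‖z i‖ ≤ ρ} := by
  have hV := (Pool.Agent.W214.RR.vol ρ N hρ).2.2.2.2 {z | ¬ Hyp (P z)}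
  have h1 : {z : Fin N → ℂ | (∀ i, ‖z i‖ ≤ ρ) ∧ ¬ Hyperbolic (withRoots z)} ⊆
      {z | ¬ Hyp (P z)} ∩ {z : Fin N → ℂ | ∀ i, ‖z i‖ ≤ ρ} :=
    fun z hz => ⟨fun h0 => hz.2 (hyperbolic_of h0), hz.1⟩
  refine (measure_mono h1).trans ?_
  rw [hV]
  gcongr

/-- Let `ρ > 0`, `ρ ^ 2 ≠ e`. There is a constant `K` such that for every degree `N ≥ 2` the
proportion (with respect to Lebesgue measure on the `N`-tuples of roots in the disc `|z| ≤ ρ`) of
the monic polynomials that are not hyperbolic is at most `K log N / N ^ (1/4)`, and at most `K / N`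
if `ρ ^ 2 > e`. In particular the proportion of the hyperbolic ones tends to one as `N → ∞`. -/
theorem result :
    ∀ ρ : ℝ, 0 < ρ → ρ ^ 2 ≠ Real.exp 1 → ∃ K : ℝ, 0 < K ∧ ∀ N : ℕ, 2 ≤ N →
      volume {z : Fin N → ℂ | (∀ i, ‖z i‖ ≤ ρ) ∧ ¬ Hyperbolic (withRoots z)} ≤
        ENNReal.ofReal (K * (Real.log N / (N : ℝ) ^ (1 / 4 : ℝ))) *
          volume {z : Fin N → ℂ | ∀ i, ‖z i‖ ≤ ρ} ∧
      (Real.exp 1 < ρ ^ 2 →
        volume {z : Fin N → ℂ | (∀ i, ‖z i‖ ≤ ρ) ∧ ¬ Hyperbolic (withRoots z)} ≤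
          ENNReal.ofReal (K / N) * volume {z : Fin N → ℂ | ∀ i, ‖z i‖ ≤ ρ}) := by
  have hA := Pool.Agent.W125.RR.PotA.main
  have hB := Pool.Agent.W108.RR.POTB
  have hC := Pool.Agent.W751.RR.PotC.potC
  have hD := Pool.Agent.W12.RR.potd
  have hMOM := Pool.Agent.W571.RR.Mom.mom hA hB hD
  have hUU := Pool.Agent.W571.RR.uu
  have hE1 := Pool.Agent.W571.RR.EV1.ev1
  have hE2 := Pool.Agent.W762.RR.t_EV2
  have hE3 := Pool.Agent.W554.RR.ev3
  have hNOC := Pool.Agent.W554.RR.noc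
  have hCNT := Pool.Agent.W839.RR.Cnt.main
  have hJB := Pool.Agent.W975.RR.jb hA hB
  have hAR := Pool.Agent.W376.RR.ar hUU hB hC Pool.Agent.W12.RR.ar1 Pool.Agent.W90.RR.AR2.ar2
  have hHYP := Pool.Agent.W32.RR.hyp
  have hHYP2 := Pool.Agent.W32.RR.hyp2
  have hCLO := Pool.Agent.W64.RR.clo
  have hSC := Pool.Agent.W214.RR.sc
  have hVOL := Pool.Agent.W214.RR.vol
  have hNU := W349.CD.NU_holds
  have hFB := Pool.Agent.W613.RR.fb hNU Pool.Agent.W597.CD.pow_holds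
    Pool.Agent.W52.CD.Conj.conj_holds
  have hDYN := Pool.Agent.W751.CD.dyn_holds
  intro ρ hρ hne
  rcases lt_or_gt_of_ne hne with hlt | hgt
  · obtain ⟨K, hK, h⟩ := Pool.Agent.W751.RR.caseA hUU hMOM hE1 hE2 hE3 hNOC hDYN hHYP hFB hCNT hNU
      hSC hCLO hVOL hJB hAR hρ hlt
    exact ⟨K, hK, fun N hN => ⟨transfer hρ (h N hN), fun hgt => absurd hgt hlt.not_gt⟩⟩
  · obtain ⟨K, hK, h⟩ := Pool.Agent.W751.RR.caseB hUU hMOM hE2 hE3 hNOC hHYP2 hVOL hρ hgt
    refine ⟨2 * K, by positivity, fun N hN => ⟨transfer hρ ((h N hN).trans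
      (ENNReal.ofReal_le_ofReal ?_)), fun _ => transfer hρ ((h N hN).trans
      (ENNReal.ofReal_le_ofReal ?_))⟩⟩
    · have := mul_le_mul_of_nonneg_left (Pool.Agent.W751.RR.rate hN).2 hK.le
      linarith
    · have hN0 : (0 : ℝ) < N := by exact_mod_cast (by omega : 0 < N)
      rw [mul_one_div]
      gcongr
      linarith

end Pool.Agent.Results.MP_28f8a1_an.RandomRoots
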