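import Mathlib
import Pool.Agent.W751.CD.Fib
import Pool.Agent.W349.CD.NU
import Pool.Agent.W349.CD.C2
import Pool.Agent.W597.CD.Pow
import Pool.Agent.W52.CD.Conj
import Pool.Agent.W125.CD.Kap
import Pool.Agent.W973.CD.EX

/-!
# Hyperbolicity and the size of the root configuration

Coarse density of hyperbolicity for all complex polynomials of large degree, and an upper bound for
the set of non-hyperbolic parameters in the family of all rescalings of a root configuration.
-/

set_option autoImplicit false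

open Polynomial Filter Topology MeasureTheory

namespace Pool.Agent.Results.MP_28f8a1_an.RootScaling

/-- The polynomial as a self-map of the plane. -/
def map (T : ℂ[X]) : ℂ → ℂ := fun w : ℂ => T.eval w

/-- The orbit of `z` escapes to infinity. -/
def Escapes (T : ℂ[X]) (z : ℂ) : Prop :=
  Tendsto (fun k : ℕ => ‖(map T)^[k] z‖) atTop atTop

/-- The orbit of `z` is attracted by a sink (attracting periodic point) of `T`. -/
def Attracted (T : ℂ[X]) (z : ℂ) : Prop :=
  ∃ n : ℕ, 0 < n ∧ ∃ x : ℂ, (map T)^[n] x = x ∧ ‖deriv ((map T)^[n]) x‖ < 1 ∧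
    Tendsto (fun k : ℕ => (map T)^[n * k] z) atTop (𝓝 x)

/-- `T` is hyperbolic: every critical point escapes or is attracted by a sink. -/
def Hyperbolic (T : ℂ[X]) : Prop :=
  ∀ c : ℂ, (derivative T).eval c = 0 → Escapes T c ∨ Attracted T c

/-- The monic polynomial with roots `z i`. -/
noncomputable def withRoots {N : ℕ} (z : Fin N → ℂ) : ℂ[X] := ∏ i, (X - C (z i))

/-- Logarithmic area: the measure `dA(w) / |w| ^ 2` on the plane. It is invariant under all
multiplications `w ↦ b * w`, and the logarithmic area of the annulus `r ≤ |w| ≤ R` is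
`2 π log (R / r)`. -/
noncomputable def logArea : Measure ℂ :=
  (volume : Measure ℂ).withDensity (fun w => ENNReal.ofReal ((‖w‖ ^ 2)⁻¹))

theorem hyperbolic_of {T : ℂ[X]} (hT : Pool.Agent.W751.CD.Hyp T) : Hyperbolic T := by
  intro c hc
  rcases hT c hc with h | ⟨x, h1, h2, h3⟩
  · exact Or.inl h
  · refine Or.inr ⟨1, one_pos, x, h1, ?_, ?_⟩
    · rw [Function.iterate_one]; exact h2
    · simp only [one_mul]; exact h3

/-- (1) For every `N ≥ 2` and all nonzero `z 1, …, z N` whose moduli have ratios at most `L`: the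
polynomial with roots `κ * z i` is hyperbolic for all complex `κ` outside a set of logarithmic area
at most `720 log (N L) / √N` (in the whole plane); and (2) `a * ∏ (X - z i)` is hyperbolic for all
complex `a` outside a set of logarithmic area at most `360 √N log (N L)`.
(3) For all `N ≥ 2`, `M ≥ 1`, all `z 1, …, z N` of modulus at most `M` and all `ε` with
`500 log (N M) / √N ≤ ε ≤ 1` there are `κ`, `τ` with `|κ - 1| ≤ ε`, `|τ| ≤ ε` such that the
polynomial with roots `κ * z i + τ` is hyperbolic. -/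
theorem result :
    (∀ N : ℕ, 2 ≤ N → ∀ (z : Fin N → ℂ) (L : ℝ), (∀ i, z i ≠ 0) →
      (∀ i j, ‖z i‖ ≤ L * ‖z j‖) →
      logArea {κ : ℂ | ¬ Hyperbolic (withRoots fun i => κ * z i)} ≤
          ENNReal.ofReal (720 * Real.log (N * L) / Real.sqrt N) ∧
      logArea {a : ℂ | ¬ Hyperbolic (C a * withRoots z)} ≤
          ENNReal.ofReal (360 * Real.sqrt N * Real.log (N * L))) ∧
    (∀ N : ℕ, 2 ≤ N → ∀ (z : Fin N → ℂ) (M ε : ℝ), 1 ≤ M → (∀ i, ‖z i‖ ≤ M) → ε ≤ 1 →
      500 * Real.log (N * M) / Real.sqrt N ≤ ε →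
      ∃ κ τ : ℂ, ‖κ - 1‖ ≤ ε ∧ ‖τ‖ ≤ ε ∧ Hyperbolic (withRoots fun i => κ * z i + τ)) := by
  have hNU := W349.CD.NU_holds
  have hFIB := Pool.Agent.W751.CD.fib_holds hNU W349.CD.C2_holds
  have hCONJ := Pool.Agent.W52.CD.Conj.conj_holds
  have hKAP := W125.CD.kap_holds hNU Pool.Agent.W597.CD.pow_holds hCONJ hFIB
  constructor
  · intro N hN z L h0 hL
    obtain ⟨h1, h2⟩ := hKAP N hN z L h0 hL
    have e1 : {κ : ℂ | ¬ Hyperbolic (withRoots fun i => κ * z i)} ⊆
        {κ : ℂ | ¬ Pool.Agent.W751.CD.Hyp (Pool.Agent.W751.CD.P fun i => κ * z i)} :=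
      Set.compl_subset_compl.2 fun κ h => hyperbolic_of h
    have e2 : {a : ℂ | ¬ Hyperbolic (C a * withRoots z)} ⊆
        {a : ℂ | ¬ Pool.Agent.W751.CD.Hyp (C a * Pool.Agent.W751.CD.P z)} :=
      Set.compl_subset_compl.2 fun κ h => hyperbolic_of h
    exact ⟨(measure_mono e1).trans h1, (measure_mono e2).trans h2⟩
  · intro N hN z M ε hM hz hε h
    obtain ⟨κ, τ, h1, h2, h3⟩ := W973.CD.EX_holds hNU hCONJ hKAP N hN z M ε hM hz hε h
    exact ⟨κ, τ, h1, h2, hyperbolic_of h3⟩

end Pool.Agent.Results.MP_28f8a1_an.RootScaling
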