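import Mathlib
import Pool.Agent.H713R3.ZA.TSURJ
import Pool.Agent.W820.BM.Asm7

set_option autoImplicit false

open Filter Topology Polynomial MeasureTheory

namespace Pool.Agent.Results.MP_28f8a1_an.ZAreaPeakFunction

/-- The polynomial as a self-map of the plane. -/
def map (T : ℂ[X]) : ℂ → ℂ := fun w : ℂ => T.eval w

/-- The orbit of `z` escapes to infinity. -/
def Escapes (T : ℂ[X]) (z : ℂ) : Prop :=
  Tendsto (fun k : ℕ => ‖(map T)^[k] z‖) atTop atTop

/-- The filled Julia set: the points which do not escape. -/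
def K (T : ℂ[X]) : Set ℂ := {z : ℂ | ¬ Escapes T z}

/-- `T` has degree `n + 1`, and `c 0, …, c (n - 1)` are its critical points, listed with
multiplicity. -/
def CritList {n : ℕ} (T : ℂ[X]) (c : Fin n → ℂ) : Prop :=
  T.natDegree = n + 1 ∧
    derivative T = C (((n : ℂ) + 1) * T.leadingCoeff) * ∏ i, (X - C (c i))

/-- Quadratic peak functions up to the area of the filled Julia set. Let `T` be a polynomial of
degree `n + 1 ≥ 2`, with leading coefficient `a`, none of whose critical points `c i` escapes. For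
every `δ > 0` there is a function `h`, holomorphic on a neighbourhood `Ω` of the connectedness locus,
that is, of the set of the polynomials `S` of degree `n + 1` with the same two leading coefficients
as `T` none of whose critical points escapes (in the coordinates critical points, constant
coefficient), such that `h = 0` at `T` and, at all points `S` of the locus and for all `j`,
`Re h + (|S.coeff j - T.coeff j| / C) ^ 2 ≤ area (K T) + δ`, where `C` depends only on `n`, `a` and a
bound for the second coefficient. -/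
theorem result (n : ℕ) (hn : 1 ≤ n) (a : ℂ) (ha : a ≠ 0) (b : ℝ) : ∃ C : ℝ, 0 < C ∧
    ∀ (T : ℂ[X]) (c : Fin n → ℂ), CritList T c → T.leadingCoeff = a → ‖T.coeff n‖ ≤ b →
      (∀ i, ¬ Escapes T (c i)) → volume (K T) < ⊤ ∧ ∀ δ : ℝ, 0 < δ →
      ∃ (Ω : Set ((Fin n → ℂ) × ℂ)) (h : (Fin n → ℂ) × ℂ → ℂ), IsOpen Ω ∧
        DifferentiableOn ℂ h Ω ∧ h (c, T.coeff 0) = 0 ∧
        ∀ (S : ℂ[X]) (s : Fin n → ℂ), CritList S s → S.leadingCoeff = a →
          S.coeff n = T.coeff n → (∀ i, ¬ Escapes S (s i)) → (s, S.coeff 0) ∈ Ω ∧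
            ∀ j : ℕ, (h (s, S.coeff 0)).re + (‖S.coeff j - T.coeff j‖ / C) ^ 2 ≤
              (volume (K T)).toReal + δ := by
  obtain ⟨C, hC, h⟩ := Pool.Agent.W820.BM.peakQ ha hn (c₀ := |b| / ‖a‖) (by positivity)
  refine ⟨C, hC, fun T c hc hTa hTb hcrit => ?_⟩
  have hT := Pool.Agent.W820.BM.fam_of_deriv hc.2
  rw [hTa] at hT
  set xT : Pool.Agent.H713R3.ZA.PE n := fun o => o.elim (T.coeff 0) c with hxT
  obtain ⟨hvol, h⟩ := h xT (Pool.Agent.W820.BM.sum_bound hn ha (by rw [hT]; exact hTb))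
    (by rw [hT]; exact hcrit)
  rw [hT] at hvol h
  refine ⟨hvol, fun δ hδ => ?_⟩
  obtain ⟨Ω, h, hΩ, hd, h0, hh⟩ := h δ hδ
  set g : (Fin n → ℂ) × ℂ → Pool.Agent.H713R3.ZA.PE n := fun q o => o.elim q.2 q.1 with hg
  have hgd : Differentiable ℂ g := by
    rw [differentiable_pi]
    intro o
    cases o with
    | none => exact differentiable_snd
    | some i => exact (differentiable_pi.mp differentiable_fst) i
  refine ⟨g ⁻¹' Ω, fun q => h (g q), hΩ.preimage hgd.continuous,
    hd.comp hgd.differentiableOn (fun q hq => hq), h0, ?_⟩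
  intro S s hS hSa hSb hSe
  have hS' := Pool.Agent.W820.BM.fam_of_deriv hS.2
  rw [hSa] at hS'
  have hgs : g (s, S.coeff 0) = fun o => o.elim (S.coeff 0) s := rfl
  have hs1 : ∑ i : Fin n, g (s, S.coeff 0) (some i) = ∑ i : Fin n, xT (some i) := by
    rw [← Pool.Agent.W820.BM.coeff_eq_iff hn ha, hgs, hS', hT]
    exact hSb
  have h1 := hh (g (s, S.coeff 0)) hs1 (by rw [hgs, hS']; exact hSe)
  rw [hgs, hS'] at h1
  exact h1

end Pool.Agent.Results.MP_28f8a1_an.ZAreaPeakFunction
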