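import Mathlib
import Pool.Agent.W739.PC.PolH

/-! Compositions of perturbed polynomials are hyperbolic, up to an exponentially small proportion
of the perturbations. -/

set_option autoImplicit false

open Filter Topology Polynomial MeasureTheory

namespace Pool.Agent.Results.MP_28f8a1_an.ZCompositionsExponential

/-- `S` is hyperbolic: every critical point escapes or is attracted by a periodic sink (the
condition of `S04139`, word for word). -/
def Hyperbolic (S : ℂ[X]) : Prop :=
  ∀ c : ℂ, S.derivative.eval c = 0 →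
    (Tendsto (fun k : ℕ => ‖(fun w : ℂ => S.eval w)^[k] c‖) atTop atTop ∨
      ∃ n : ℕ, 0 < n ∧ ∃ z : ℂ,
        (fun w : ℂ => S.eval w)^[n] z = z ∧
        ‖deriv ((fun w : ℂ => S.eval w)^[n]) z‖ < 1 ∧
        Tendsto (fun k : ℕ => (fun w : ℂ => S.eval w)^[n * k] c) atTop (𝓝 z))

/-- The composition `f (p - 1) ∘ ⋯ ∘ f 1 ∘ f 0`. -/
noncomputable def compose : (p : ℕ) → (Fin p → ℂ[X]) → ℂ[X]
  | 0, _ => X
  | p + 1, f => (f (Fin.last p)).comp (compose p fun i => f i.castSucc)

theorem compose_eq (p : ℕ) (f : Fin p → ℂ[X]) :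
    compose p f = Pool.Agent.W739.PC.PolG.compose p f := by
  induction p with
  | zero => rfl
  | succ p ih => rw [compose, Pool.Agent.W739.PC.PolG.compose, ih]

theorem hyperbolic_iff (S : ℂ[X]) : Hyperbolic S ↔
    ∀ z : ℂ, (derivative S).eval z = 0 → Pool.Agent.W739.PC.PolG.Good (fun w => S.eval w) z :=
  Iff.rfl

/-- (1) Let `T 0, ..., T (p - 1)`, `p ≥ 1`, be polynomials of degrees at least two, and `ε > 0`.
Repeat this sequence `k` times and add to each of the `k p` polynomials a constant of modulus less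
than `ε`. The proportion (in volume) of the perturbations for which the composition of the `k p`
polynomials is not hyperbolic is at most `K exp (- c k)`, with `K` and `c > 0` independent of `k`.
In particular, for all large `k` there are such perturbations for which the composition is
hyperbolic.

(2) Let `P q`, `q ∈ O`, be a family of polynomials of degree `d ≥ 2`, parametrised by a bounded open
set `O` of `ℂ ^ N`, with coefficients which depend continuously on the parameter, of degree `d` also
on the closure of `O`, and closed under the addition of small constants (for instance all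
polynomials of degree `d` with coefficients in a bounded open set whose closure consists of
polynomials of degree `d`). The proportion of the `p`-tuples of members of the family whose
composition is not hyperbolic is at most `K exp (- c p)`, with `K` and `c > 0` independent of `p`. -/
theorem result :
    (∀ (p : ℕ) (T : Fin p → ℂ[X]), 1 ≤ p → (∀ j, 2 ≤ (T j).natDegree) → ∀ ε : ℝ, 0 < ε →
      ∃ K c : ℝ, 0 < c ∧
        (∀ k : ℕ, volume {t : Fin k → Fin p → ℂ | (∀ i j, ‖t i j‖ < ε) ∧
            ¬ Hyperbolic (compose k fun i => compose p fun j => T j + C (t i j))} ≤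
          ENNReal.ofReal (K * Real.exp (-c * k)) *
            volume {t : Fin k → Fin p → ℂ | ∀ i j, ‖t i j‖ < ε}) ∧
        ∀ᶠ k : ℕ in atTop, ∃ t : Fin k → Fin p → ℂ, (∀ i j, ‖t i j‖ < ε) ∧
          Hyperbolic (compose k fun i => compose p fun j => T j + C (t i j))) ∧
    (∀ (d N : ℕ) (P : (Fin N → ℂ) → ℂ[X]) (O : Set (Fin N → ℂ)), 2 ≤ d →
      (∀ i, Continuous fun q => (P q).coeff i) → (∀ q, (P q).natDegree ≤ d) →
      IsOpen O → Bornology.IsBounded O → (∀ q ∈ closure O, (P q).natDegree = d) →
      (∀ q ∈ O, ∃ ρ : ℝ, 0 < ρ ∧ ∀ s : ℂ, ‖s‖ < ρ → ∃ q' ∈ O, P q' = P q + C s) →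
      ∃ K c : ℝ, 0 < c ∧ ∀ p : ℕ,
        volume {ω : Fin p → Fin N → ℂ | (∀ i, ω i ∈ O) ∧
          ¬ Hyperbolic (compose p fun i => P (ω i))} ≤
        ENNReal.ofReal (K * Real.exp (-c * p)) * volume O ^ p) := by
  constructor
  · intro p T hp hT ε hε
    have hF := Pool.Agent.W739.PC.PolG.fam_compose hp T hT hε
    have hset : {t : Fin p → ℂ | ∀ j, ‖t j‖ < ε} = Metric.ball 0 ε := by
      ext t
      rw [mem_ball_zero_iff, pi_norm_lt_iff hε]
      rfl
    have hfin : volume {t : Fin p → ℂ | ∀ j, ‖t j‖ < ε} ≠ ⊤ := by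
      rw [hset]; exact measure_ball_lt_top.ne
    obtain ⟨K, c, hc, hK⟩ := hF.main (ν := (volume : Measure (Fin p → ℂ))) hfin
    have hvol : ∀ k : ℕ, volume {t : Fin k → Fin p → ℂ | ∀ i j, ‖t i j‖ < ε} =
        volume {t : Fin p → ℂ | ∀ j, ‖t j‖ < ε} ^ k := by
      intro k
      have e : {t : Fin k → Fin p → ℂ | ∀ i j, ‖t i j‖ < ε} =
          Set.univ.pi fun _ => {t : Fin p → ℂ | ∀ j, ‖t j‖ < ε} := by
        ext t
        simp
      rw [e, volume_pi_pi]
      simp
    have hle : ∀ k : ℕ, volume {t : Fin k → Fin p → ℂ | (∀ i j, ‖t i j‖ < ε) ∧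
            ¬ Hyperbolic (compose k fun i => compose p fun j => T j + C (t i j))} ≤
          ENNReal.ofReal (K * Real.exp (-c * k)) *
            volume {t : Fin k → Fin p → ℂ | ∀ i j, ‖t i j‖ < ε} := by
      intro k
      rw [hvol]
      refine le_trans (le_of_eq ?_) (hK k)
      rw [← volume_pi]
      congr 1
      ext t
      have e : (compose k fun i => compose p fun j => T j + C (t i j)) =
          Pool.Agent.W739.PC.PolG.compose k fun i =>
            Pool.Agent.W739.PC.PolG.compose p fun j => T j + C (t i j) := by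
        rw [compose_eq]
        congr 1
        funext i
        rw [compose_eq]
      show ((∀ i j, ‖t i j‖ < ε) ∧ ¬ Hyperbolic _) ↔ _
      rw [e]
      rfl
    refine ⟨K, c, hc, hle, ?_⟩
    have hlim : Tendsto (fun k : ℕ => K * Real.exp (-c * k)) atTop (𝓝 (K * 0)) := by
      refine Tendsto.const_mul K ?_
      rw [Real.tendsto_exp_comp_nhds_zero]
      exact Tendsto.const_mul_atTop_of_neg (by linarith) tendsto_natCast_atTop_atTop
    rw [mul_zero] at hlim
    filter_upwards [hlim.eventually (gt_mem_nhds one_pos)] with k hk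
    by_contra hcon
    push Not at hcon
    have h1 := hle k
    have h2 : {t : Fin k → Fin p → ℂ | (∀ i j, ‖t i j‖ < ε) ∧
        ¬ Hyperbolic (compose k fun i => compose p fun j => T j + C (t i j))} =
        {t : Fin k → Fin p → ℂ | ∀ i j, ‖t i j‖ < ε} := by
      ext t
      exact ⟨fun h => h.1, fun h => ⟨h, hcon t h⟩⟩
    rw [h2] at h1
    have h3 : volume {t : Fin k → Fin p → ℂ | ∀ i j, ‖t i j‖ < ε} ≠ ⊤ := by
      rw [hvol]; exact ENNReal.pow_ne_top hfin
    have h4 : volume {t : Fin k → Fin p → ℂ | ∀ i j, ‖t i j‖ < ε} ≠ 0 := by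
      rw [hvol, hset]
      exact pow_ne_zero _ (Metric.measure_ball_pos volume 0 hε).ne'
    have h5 : ENNReal.ofReal (K * Real.exp (-c * k)) < 1 := by
      rw [← ENNReal.ofReal_one]
      exact (ENNReal.ofReal_lt_ofReal_iff one_pos).2 hk
    have h6 : ENNReal.ofReal (K * Real.exp (-c * k)) *
        volume {t : Fin k → Fin p → ℂ | ∀ i j, ‖t i j‖ < ε} <
        1 * volume {t : Fin k → Fin p → ℂ | ∀ i j, ‖t i j‖ < ε} :=
      ENNReal.mul_lt_mul_left h4 h3 h5
    rw [one_mul] at h6
    exact absurd h1 (not_le.2 h6)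
  · intro d N P O hd hcont hdeg hO hOb hOd hsh
    have hF : Pool.Agent.W739.PC.PolG.Fam d P O :=
      ⟨hd, hcont, hdeg, hO, hOb.isCompact_closure, hOd, hsh⟩
    obtain ⟨K, c, hc, hK⟩ := hF.main (ν := (volume : Measure (Fin N → ℂ))) hOb.measure_lt_top.ne
    refine ⟨K, c, hc, fun p => ?_⟩
    refine le_trans (le_of_eq ?_) (hK p)
    rw [← volume_pi]
    congr 1
    ext ω
    show (_ ∧ ¬ Hyperbolic _) ↔ _
    rw [compose_eq]
    rfl

end Pool.Agent.Results.MP_28f8a1_an.ZCompositionsExponential
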